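import Pool.Agent.U951.TR.Idx
import Pool.Agent.U951.TR.Odd

/-!
# Oppermann's conjecture: all integers near `s(n)`, `n - φ(n)` and `α n + β f(n)`

Let `s(n)` be the sum of the proper divisors of `n`, let `G` have steps bounded below by a positive constant and order
of growth at most `d ≥ 1`, and `κ ≥ 0`, `0.612 d + κ ≤ e ≤ 1`. We show that for a set of `n` of lower density at least
`1 - e` ALL the integers `k ≥ 1` with `|k - G (s(n))| ≤ s(n) ^ κ` have the following property, and the same holds for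
`n - φ(n)` in place of `s(n)`: both the open intervals `(k ^ 2 - k, k ^ 2)` and `(k ^ 2, k ^ 2 + k)` contain a prime
(Oppermann's conjecture for `k`), and every interval of length `H ≥ k ^ (1 - δ)` between `k ^ 2 - k` and `k ^ 2 + k`
contains at least `c H / log k` primes. For `G g = g` and `κ = 0` this is a statement on `k = s(n)` and `k = n -
φ(n)`, for a set of `n` of lower density at least `0.388`. More precisely the property holds for almost all `n` with a
divisor `≥ n ^ e` which is a prime or the product of two different primes, and for the values `g = α n + β f(n)` of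
multiplicative functions with `f p = p + c` at the primes, uniformly in `|α|, |β| ≤ N ^ δ'` and with a power saving in
the number of the exceptional `n`.

The values `s(n)`, `n - φ(n)` are not multiplicative, and some of them are taken very often, so that bounds for the
number of the exceptional `k ≤ X` do not say anything about them.

Proof. The starting library (`Pool/Agent/Q278/KT`, in the form `Pool/Agent/S821/PowIdx` of helper821) bounds the
number of the exceptional `k ≤ X` by `X ^ (0.612 - δ)`. Let `n = k v p` with large primes `p ≠ v`. Then `g = A v p + B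
(v + p) + B c`, `A = α k + β f(k)`, `B = β c f(k)`, and so `(A v + B) (A p + B) = A g + B² - A B c`: for given `g`,
`k`, `α`, `β` there are only `N^o(1)` possibilities for `p` and `v` (tool `Pool.Agent.U365.POW` of helper365).
-/

set_option autoImplicit false

open Finset Filter

namespace Pool.Agent.Results.MP_bf4c7f_nt.AliquotValues

open Pool.Agent.S821.PowIdx (RichPow)
open Pool.Agent.U951.TR.Idx (Near)
open Pool.Agent.U365.POW (Values Dens)
open Pool.Agent.N733.TG (Expanding)

/-- Both the open intervals `(k ^ 2 - k, k ^ 2)` and `(k ^ 2, k ^ 2 + k)` contain a prime, and every interval `(a, a + H]`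
between `k ^ 2 - k` and `k ^ 2 + k` of length `H ≥ k ^ (1 - δ)` contains at least `c H / log k` primes. -/
def Oppermann (c δ : ℝ) (k : ℕ) : Prop :=
  (∃ p : ℕ, p.Prime ∧ k ^ 2 - k < p ∧ p < k ^ 2) ∧ (∃ p : ℕ, p.Prime ∧ k ^ 2 < p ∧ p < k ^ 2 + k) ∧
  ∀ a H : ℕ, k ^ 2 - k ≤ a → a + H ≤ k ^ 2 + k → (k : ℝ) ^ (1 - δ) ≤ H →
    c * H / Real.log k ≤ (((Finset.Ioc a (a + H)).filter Nat.Prime).card : ℝ)

lemma of_rich {c δ : ℝ} (hc : 0 < c) (hδ : 0 < δ) {k : ℕ} (hk : 2 ≤ k) (h : RichPow c (1 - δ) 2 3 (1 * k)) :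
    Oppermann c δ k := by
  rw [one_mul] at h
  have hk2 : (2 : ℝ) ≤ k := by exact_mod_cast hk
  have hk0 : (0 : ℝ) < k := by linarith
  have hlog : 0 < Real.log k := Real.log_pos (by linarith)
  have hsq : k ≤ k ^ 2 := by nlinarith
  have hw : ∀ a H : ℕ, k ^ 2 - k ≤ a → a + H ≤ k ^ 2 + k → (k : ℝ) ^ (1 - δ) ≤ H →
      c * H / Real.log k ≤ (((Finset.Ioc a (a + H)).filter Nat.Prime).card : ℝ) := by
    intro a H g1 g2 g3
    have g1' : (k : ℝ) ^ 2 - k ≤ a := by
      have : k ^ 2 ≤ a + k := by omega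
      have h2 : (k : ℝ) ^ 2 ≤ a + k := by exact_mod_cast this
      linarith
    have g2' : (a : ℝ) + H ≤ (k : ℝ) ^ 2 + k := by exact_mod_cast g2
    have hH : (0 : ℝ) ≤ H := Nat.cast_nonneg _
    exact h a H (by
      rw [Real.rpow_two, show (2 : ℝ) - 1 = 1 by norm_num, Real.rpow_one, abs_le]
      constructor <;> linarith) (by
      rw [Real.rpow_two, show (2 : ℝ) - 1 = 1 by norm_num, Real.rpow_one, abs_le]
      constructor <;> linarith) g3
  have hkk : (k : ℝ) ^ (1 - δ) ≤ k := by
    calc (k : ℝ) ^ (1 - δ) ≤ (k : ℝ) ^ (1 : ℝ) := Real.rpow_le_rpow_of_exponent_le (by linarith) (by linarith)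
      _ = k := Real.rpow_one _
  have hp : ∀ a : ℕ, k ^ 2 - k ≤ a → a + k ≤ k ^ 2 + k → ∃ p : ℕ, p.Prime ∧ a < p ∧ p ≤ a + k := by
    intro a g1 g2
    have h6 : (0 : ℝ) < (((Finset.Ioc a (a + k)).filter Nat.Prime).card : ℝ) :=
      lt_of_lt_of_le (by positivity) (hw a k g1 g2 hkk)
    obtain ⟨p, hp⟩ := card_pos.1 (by exact_mod_cast h6 : 0 < ((Finset.Ioc a (a + k)).filter Nat.Prime).card)
    rw [mem_filter, mem_Ioc] at hp
    exact ⟨p, hp.2, hp.1.1, hp.1.2⟩
  have n1 : ¬ (k ^ 2).Prime := by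
    rw [sq]
    exact Nat.not_prime_mul (by omega) (by omega)
  have n2 : ¬ (k ^ 2 + k).Prime := by
    rw [show k ^ 2 + k = k * (k + 1) by ring]
    exact Nat.not_prime_mul (by omega) (by omega)
  refine ⟨?_, ?_, hw⟩
  · obtain ⟨p, p1, p2, p3⟩ := hp (k ^ 2 - k) le_rfl (by omega)
    refine ⟨p, p1, p2, lt_of_le_of_ne (by omega) ?_⟩
    rintro rfl
    exact n1 p1
  · obtain ⟨p, p1, p2, p3⟩ := hp (k ^ 2) (by omega) le_rfl
    refine ⟨p, p1, p2, lt_of_le_of_ne p3 ?_⟩
    rintro rfl
    exact n2 p1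

/-- the constants -/
lemma start (c δ : ℝ) (hc : 0 < c) (hδ : 0 < δ) (_ : δ ≤ 0.0025) : ∃ c' δ' : ℝ, 0 < c' ∧ 0 < δ' ∧
    ∃ k1 : ℕ, ∀ k : ℕ, k1 ≤ k → RichPow c (1 - δ) 2 3 (1 * k) → Oppermann c' δ' k :=
  ⟨c, δ, hc, hδ, 2, fun _ hk h => of_rich hc hδ hk h⟩

/-- **Theorem.** There are `c > 0` and `δ > 0` such that for all `G` with steps bounded below and order at most `d ≥ 1`,
and all `κ ≥ 0` and `e ≤ 1` with `0.612 d + κ ≤ e`, the property `Oppermann c δ` of ALL the integers `k ≥ 1` with `|k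
- G g| ≤ g ^ κ` holds for the values `g` of functions similar to the aliquot sum (`Values e`: for `s(n)`, for `n -
φ(n)` and for all `α n + β f(n)`, for almost all the `n` with a divisor `≥ n ^ e` which is a prime or the product of
two different primes), and for both `g = s(n)` and `g = n - φ(n)` for a set of `n` of lower density at least `1 - e`. -/
theorem result :
    ∃ c δ : ℝ, 0 < c ∧ 0 < δ ∧ ∀ (G : ℕ → ℝ) (d : ℝ), Expanding G d → ∀ κ e : ℝ, 0 ≤ κ → 0.612 * d + κ ≤ e → e ≤ 1 →
      Values e (Near (Oppermann c δ) G κ) ∧ Dens (1 - e) (Near (Oppermann c δ) G κ) := by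
  obtain ⟨c, δ, hc, hδ, hδ1, H⟩ := Pool.Agent.U951.TR.Idx.tools
  obtain ⟨c', δ', hc', hδ', hk⟩ := start c δ hc hδ hδ1
  refine ⟨c', δ', hc', hδ', fun G d hG κ e hκ he he1 => ?_⟩
  exact (H 1 (Oppermann c' δ') (by norm_num) hk G d hG κ e hκ he).1 he1

end Pool.Agent.Results.MP_bf4c7f_nt.AliquotValues
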