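import Pool.Agent.U513.AP.Primes

/-!
# Oppermann's conjecture at the numerators and denominators of Diophantine approximations

Let `α ∈ ℝ ^ d` and consider all its approximations `(k, p_1, …, p_d)` with `|k α_i - γ_i - p_i| ≤ k ^ (-τ)`; for `d = 1`, `γ = 0`,
`τ = 1` these contain the denominators and numerators of all the convergents of the continued fraction of `α`, for `τ = 1 / d` all
the best simultaneous approximations. We show that for all `α` outside of a set of Hausdorff dimension at most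
`(d + 0.612 + w - δ) / (1 + τ)` Oppermann's conjecture is true for ALL the integers `n ≥ 1` at a distance of at most `k ^ w` from
`a k + b_1 p_1 + ⋯ + b_d p_d`, for every integral linear form `(a, b) ≠ 0` and all these approximations with large `k`; moreover
every interval of length `H ≥ n ^ (1 - δ)` in `[n ^ 2 - n, n ^ 2 + n]` contains at least `c H / log n` primes. For
`d = 1`, `τ = 1` the dimension is at most `(1.612 + w - δ) / 2 < 1` for `w ≤ 0.388`. The theorem is more general: linear forms are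
replaced by all the integral polynomials `P(k, p)` of degree at most `D` with small level sets, with the dimension
`(d + 1 - l + 0.612 D + w - δ) / (1 + τ)`, for example `k ^ 2 + p_1 ^ 2 + Q(p_2, …)` with `l = D = 2`, so that for `d = 1`, `τ = 1` all the
integers `n` within `k ^ w` of `k ^ 2 + p ^ 2` are covered, with dimension `(1.224 + w - δ) / 2`. All the `α` with approximations of
exponent `τ > 1 / d` form a set of dimension `(d + 1) / (1 + τ)`, so that the theorem is new information also for large `τ`.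

Proof. `Pool/Agent/Q278/KT` of the starting library (prepared for another question) bounds the number of the exceptional `n ≤ X` by
`X ^ (0.612 - δ)` (`S821/PowIdx` of helper821, form of helper766 in `U766/OP/Core`). The integral vectors `(k, p)` with `k ≈ N` and
`P(k, p)` near the exceptional set are counted with the level sets of `P` (`U513/AP/Core`), and the sets of the `α` approximated
by them, cubes of side `2 N ^ (- 1 - τ)`, are used as the covers in the definition of the Hausdorff measure. The numbers `k`, `p` have the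
density zero for a given `α`, so that a bound for the number of exceptional `n` alone does not say anything about them.
-/

set_option autoImplicit false

open Finset Filter MeasureTheory

namespace Pool.Agent.Results.MP_bf4c7f_nt.Approximations

/-- Oppermann's conjecture for `x`: `π(x² - x) < π(x²) < π(x² + x)`. -/
def Oppermann (x : ℕ) : Prop := 1 < x →
  Nat.primeCounting (x ^ 2 - x) < Nat.primeCounting (x ^ 2) ∧ Nat.primeCounting (x ^ 2) < Nat.primeCounting (x ^ 2 + x)

/-- Every interval `(a, a + H]` in `[x ^ 2 - x, x ^ 2 + x]` with `H ≥ x ^ (1 - δ)` contains at least `c H / log x` primes. -/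
def Rich (c δ : ℝ) (x : ℕ) : Prop := ∀ a H : ℕ, x ^ 2 ≤ a + x → a + H ≤ x ^ 2 + x → (x : ℝ) ^ (1 - δ) ≤ H →
  c * H / Real.log x ≤ (((Finset.Ioc a (a + H)).filter Nat.Prime).card : ℝ)

/-- `x` has both properties. -/
def Good (c δ : ℝ) (x : ℕ) : Prop := Oppermann x ∧ Rich c δ x

/-- The level sets of `P` in the boxes `|w_i| ≤ X` have at most `C X ^ (r - l + ε)` elements. -/
def SmallLevels {r : ℕ} (P : MvPolynomial (Fin r) ℤ) (l : ℝ) : Prop :=
  l ≤ r ∧ ∀ ε : ℝ, 0 < ε → ∃ C : ℝ, ∀ X : ℕ, 1 ≤ X → ∀ v : ℤ,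
    ({w : Fin r → ℤ | (∀ i, |w i| ≤ X) ∧ MvPolynomial.eval w P = v}.ncard : ℝ) ≤ C * (X : ℝ) ^ (r - l + ε)

/-- the polynomial `x_0 ^ 2 + x_1 ^ 2 + Q(x_2, x_3, …)` -/
noncomputable def squaresPlus {r : ℕ} (Q : MvPolynomial (Fin r) ℤ) : MvPolynomial (Fin (r + 2)) ℤ :=
  MvPolynomial.X 0 ^ 2 + MvPolynomial.X 1 ^ 2 + MvPolynomial.rename (fun i : Fin r => i.succ.succ) Q

/-- `(k, p)` is an approximation of `α` of exponent `τ` and shift `γ`: `|k α_i - γ_i - p_i| ≤ k ^ (-τ)` for all `i`. -/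
def Approx {d : ℕ} (τ : ℝ) (γ α : Fin d → ℝ) (k : ℕ) (p : Fin d → ℤ) : Prop :=
  ∀ i, |(k : ℝ) * α i - γ i - p i| ≤ (k : ℝ) ^ (-τ)

lemma lt_of_rich {c δ : ℝ} {x : ℕ} (hc : 0 < c) (hδ : 0 ≤ δ) (hx : 1 < x) (h : Rich c δ x) (a : ℕ) (h1 : x ^ 2 ≤ a + x)
    (h2 : a + x ≤ x ^ 2 + x) : Nat.primeCounting a < Nat.primeCounting (a + x) := by
  have hx1 : (1 : ℝ) < x := by exact_mod_cast hx
  have hx0 : (0 : ℝ) < x := by linarith
  have h3 : (x : ℝ) ^ (1 - δ) ≤ x := by
    calc (x : ℝ) ^ (1 - δ) ≤ (x : ℝ) ^ (1 : ℝ) := Real.rpow_le_rpow_of_exponent_le hx1.le (by linarith)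
      _ = x := Real.rpow_one _
  have h4 := h a x h1 h2 h3
  have h5 : 0 < Real.log x := Real.log_pos hx1
  have h6 : (0 : ℝ) < (((Finset.Ioc a (a + x)).filter Nat.Prime).card : ℝ) := lt_of_lt_of_le (by positivity) h4
  obtain ⟨p, hp⟩ := card_pos.1 (by exact_mod_cast h6 : 0 < ((Finset.Ioc a (a + x)).filter Nat.Prime).card)
  rw [mem_filter, mem_Ioc] at hp
  obtain ⟨⟨h7, h8⟩, h9⟩ := hp
  unfold Nat.primeCounting Nat.primeCounting'
  exact lt_of_le_of_lt (Nat.count_monotone Nat.Prime (by omega : a + 1 ≤ p)) (Nat.count_strict_mono h9 (by omega))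

lemma oppermann_of_rich {c δ : ℝ} {x : ℕ} (hc : 0 < c) (hδ : 0 ≤ δ) (h : Rich c δ x) : Oppermann x := by
  intro hx
  have hxx : x ≤ x ^ 2 := by nlinarith
  have h1 := lt_of_rich hc hδ hx h (x ^ 2 - x) (by omega) (by omega)
  have h2 := lt_of_rich hc hδ hx h (x ^ 2) (by omega) (by omega)
  rw [Nat.sub_add_cancel hxx] at h1
  exact ⟨h1, h2⟩

lemma rich_of {c δ : ℝ} {x : ℕ} (h1 : Pool.Agent.S821.PowIdx.RichPow c (1 - δ) 2 3 (1 * x)) : Rich c δ x := by
  rw [one_mul] at h1
  intro a H g1 g2 g3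
  have g1' : (x : ℝ) ^ 2 ≤ a + x := by exact_mod_cast g1
  have g2' : (a : ℝ) + H ≤ (x : ℝ) ^ 2 + x := by exact_mod_cast g2
  have hH : (0 : ℝ) ≤ H := Nat.cast_nonneg _
  have hx : (0 : ℝ) ≤ x := Nat.cast_nonneg _
  refine h1 a H ?_ ?_ g3
  · rw [Real.rpow_two, show (2 : ℝ) - 1 = 1 by norm_num, Real.rpow_one, abs_le]
    constructor <;> linarith
  · rw [Real.rpow_two, show (2 : ℝ) - 1 = 1 by norm_num, Real.rpow_one, abs_le]
    constructor <;> linarith

lemma Rich.mono {c c' δ δ' : ℝ} {x : ℕ} (h : Rich c δ x) (hc : c' ≤ c) (hδ : δ' ≤ δ) (hx : 1 ≤ x) : Rich c' δ' x := by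
  intro a H h1 h2 h3
  have hx1 : (1 : ℝ) ≤ x := by exact_mod_cast hx
  refine le_trans ?_ (h a H h1 h2 ((Real.rpow_le_rpow_of_exponent_le hx1 (by linarith)).trans h3))
  have := Real.log_nonneg hx1
  gcongr

/-- **Oppermann's conjecture at the approximations of almost all points.** There are `c > 0` and `δ > 0` such that for all
`d ≥ 1`, `D ≥ 1`, `τ ≥ 0`, `w ≥ 0`, `l` and all `γ ∈ ℝ ^ d` there is a set `E` of Hausdorff dimension at most
`(d + 1 - l + 0.612 D + w - δ) / (1 + τ)` (of Lebesgue measure zero if `0.612 D + w + 1 ≤ l + d τ`), such that for all `α ∉ E` and all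
integral polynomials `P` in `d + 1` variables of degree at most `D` with `SmallLevels P l`, for all large `k` and all integral vectors
`p` with `|k α_i - γ_i - p_i| ≤ k ^ (-τ)`, ALL the integers `x ≥ 1` with `|x - P(k, p)| ≤ k ^ w` are good: `π(x² - x) < π(x²) < π(x² + x)`
(if `x > 1`), and every interval `(a, a + H]` in `[x ^ 2 - x, x ^ 2 + x]` with `H ≥ x ^ (1 - δ)` contains at least `c H / log x` primes. All the
nonconstant polynomials, such as the linear forms, have `SmallLevels P 1`, and the polynomials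
`x_0 ^ 2 + x_1 ^ 2 + Q(x_2, …)` have `SmallLevels P 2`. -/
theorem result :
    (∃ c δ : ℝ, 0 < c ∧ 0 < δ ∧ ∀ (d D : ℕ) (τ w l : ℝ) (γ : Fin d → ℝ), 1 ≤ d → 1 ≤ D → 0 ≤ τ → 0 ≤ w →
      ∃ E : Set (Fin d → ℝ), dimH E ≤ ENNReal.ofReal ((d + 1 - l + 0.612 * D + w - δ) / (1 + τ)) ∧
        (0.612 * D + w + 1 ≤ l + d * τ → volume E = 0) ∧
        ∀ α, α ∉ E → ∀ P : MvPolynomial (Fin (d + 1)) ℤ, P.totalDegree ≤ D → SmallLevels P l →
          ∀ᶠ k : ℕ in atTop, ∀ p : Fin d → ℤ, Approx τ γ α k p → ∀ x : ℕ, 1 ≤ x →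
            |(x : ℝ) - (MvPolynomial.eval (Fin.cons (k : ℤ) p : Fin (d + 1) → ℤ) P : ℤ)| ≤ (k : ℝ) ^ w →
              Good c δ x) ∧
    (∀ (r : ℕ) (P : MvPolynomial (Fin r) ℤ), (∀ c : ℤ, P ≠ MvPolynomial.C c) → SmallLevels P 1) ∧
    ∀ (r : ℕ) (Q : MvPolynomial (Fin r) ℤ), SmallLevels (squaresPlus Q) 2 := by
  refine ⟨?_, fun r P hP => Pool.Agent.U513.AP.lev_one P hP, fun r Q => Pool.Agent.U513.AP.lev_squares Q⟩
  obtain ⟨c, δ, hc, hδ, hδ1, h⟩ := Pool.Agent.U513.AP.square_law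
  obtain ⟨k1, hk1⟩ : ∃ k1 : ℕ, ∀ k : ℕ, k1 ≤ k → Pool.Agent.S821.PowIdx.RichPow c (1 - δ) 2 3 (1 * k) →
      Good c (δ / 2) k := by
    refine ⟨1, fun k hk hR => ?_⟩
    have h1 := (rich_of hR).mono le_rfl (by linarith : δ / 2 ≤ δ) hk
    exact ⟨oppermann_of_rich hc (by positivity) h1, h1⟩
  refine ⟨c, δ / 2, by positivity, by positivity, fun d D τ w l γ hd hD hτ hw => ?_⟩
  obtain ⟨E, h1, h2, h3⟩ := h (Good (c) (δ / 2)) 1 k1 le_rfl hk1 d D τ w l γ hd hD hτ hw
  exact ⟨E, h1, h2, h3⟩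

end Pool.Agent.Results.MP_bf4c7f_nt.Approximations
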