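import Mathlib
import Pool.Agent.U766.OP.Blk
import Pool.Agent.Q278.KT.Fin
import Pool.Agent.Y880.RS.P3i
import Pool.Agent.H426R3.SQ.Q4
import Pool.Agent.H683R3.SQ.Freq2

/-!
# MP_bf4c7f_nt (Oppermann): lonely endpoints and full intervals at the same time

Put `f(X) = log X (log₂ X)² log₄ X / (log₃ X)²` (iterated logarithms), the size of the largest known gaps between primes.
For at least `X ^ (1 - ε) / 2` of the `n ≤ X` the following holds for each of the consecutive integers `x = n, …, n + J - 1`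
(`J Z ≤ c ε f(X)`, for example `J = 2`, `x = n + 1`: all three endpoints `x² - x`, `x²`, `x² + x` of Oppermann's intervals):

* `x²` and `x² + x` lie in prime gaps of the record size: neither of them has a prime within `Z`;
* nevertheless Oppermann's conjecture holds for `x` in a strong form: EVERY interval of length `H ≥ x ^ (1 - δ)` inside
  `[x² - x, x² + x]` contains at least `c' H / log x` primes, and it contains `k` equal blocks of at least `m` primes each,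
  of length at most `B log x`, along a progression with difference at most `(log x) ^ B`.

So long gaps at the endpoints do not disturb the distribution of the primes inside the intervals. The number of the
`n ≤ X` with lonely endpoints is at least `X ^ (1 - ε)` by the starting result `MP_bf4c7f_nt.EndpointsInLongGaps`
(`Pool.Agent.H426R3.SQ`, `Pool.Agent.H683R3.SQ`); the second part holds for all `n ≤ X` with the exception of at most
`X ^ 0.612` (`Pool.Agent.Q278.KT.mainp_half` for separated intervals with few primes, and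
`Pool.Agent.Y880.RS.P3.windows` for the blocks, see `MP_1e9cc8_nt.TranslatedBlocks`).
-/

set_option autoImplicit false

namespace Pool.Agent.Results.MP_bf4c7f_nt.LonelyEndpointsFullWindows

open Filter

/-- `f(X) = log X (log₂ X)² log₄ X / (log₃ X)²` -/
noncomputable def rec (X : ℝ) : ℝ :=
  Real.log X * (Real.log (Real.log X)) ^ 2 * Real.log (Real.log (Real.log (Real.log X))) /
    (Real.log (Real.log (Real.log X))) ^ 2

/-- neither `x²` nor `x² + x` has a prime within `Z` -/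
def Lonely (Z x : ℕ) : Prop :=
  ∀ q : ℕ, q.Prime → (Z : ℝ) < |(q : ℝ) - (x : ℝ) ^ 2| ∧ (Z : ℝ) < |(q : ℝ) - ((x : ℝ) ^ 2 + x)|

/-- `(a, a + H]` is contained in `[x² - x, x² + x]` and has length `H ≥ x ^ (1 - δ)`. -/
def Window (δ : ℝ) (x a H : ℕ) : Prop := x ^ 2 ≤ a + x ∧ a + H ≤ x ^ 2 + x ∧ (x : ℝ) ^ (1 - δ) ≤ H

/-- `(a, a + H]` contains the `k` blocks `[q + j d, q + j d + w]`, `j < k`, where `1 ≤ d ≤ D` and `w ≤ W`; `q` is a prime,
the primes in the `k` blocks are the same up to the translations by `j d`, and there are at least `m` of them in each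
block. -/
def Blocks (k m : ℕ) (D W : ℝ) (a H : ℕ) : Prop :=
  ∃ q d w : ℕ, 1 ≤ d ∧ (d : ℝ) ≤ D ∧ (w : ℝ) ≤ W ∧ a < q ∧ q + (k - 1) * d + w ≤ a + H ∧ q.Prime ∧
    (∀ j < k, ∀ u ≤ w, (q + j * d + u).Prime ↔ (q + u).Prime) ∧
    m ≤ ((Finset.range (w + 1)).filter (fun u => (q + u).Prime)).card

/-- Every window of `x` has at least `c H / log x` primes, and `k` equal blocks of at least `m` primes. -/
def Full (c δ : ℝ) (k m B : ℕ) (x : ℕ) : Prop :=
  ∀ a H : ℕ, Window δ x a H →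
    c * H / Real.log x ≤ (((Finset.Ioc a (a + H)).filter Nat.Prime).card : ℝ) ∧
    Blocks k m (Real.log x ^ B) (B * Real.log x) a H

lemma growth (c : ℝ) (hc : 0 < c) : ∀ᶠ X : ℝ in atTop,
    c * (Real.log X) ^ 4 * (2 * X) ^ (0.612 : ℝ) + X ^ (0.5 : ℝ) + 1 ≤ X ^ (0.62 : ℝ) / 2 := by
  have t1 := (isLittleO_log_rpow_atTop (show (0 : ℝ) < 0.001 by norm_num)).bound (show (0 : ℝ) < 1 by norm_num)
  have t2 : ∀ᶠ X : ℝ in atTop, 16 * c + 8 ≤ X ^ (0.004 : ℝ) := (tendsto_rpow_atTop (by norm_num)).eventually_ge_atTop _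
  filter_upwards [t1, t2, eventually_ge_atTop 1] with X h1 h2 hX
  have hX0 : 0 < X := by linarith
  have hl0 : 0 ≤ Real.log X := Real.log_nonneg hX
  rw [Real.norm_of_nonneg hl0, Real.norm_of_nonneg (by positivity), one_mul] at h1
  have h4 : (Real.log X) ^ 4 ≤ X ^ (0.004 : ℝ) := by
    calc (Real.log X) ^ 4 ≤ (X ^ (0.001 : ℝ)) ^ 4 := pow_le_pow_left₀ hl0 h1 4
      _ = X ^ (0.004 : ℝ) := by
          rw [← Real.rpow_natCast (X ^ (0.001 : ℝ)) 4, ← Real.rpow_mul hX0.le]; norm_num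
  have h5 : (2 * X) ^ (0.612 : ℝ) ≤ 2 * X ^ (0.612 : ℝ) := by
    rw [Real.mul_rpow (by norm_num) hX0.le]
    gcongr
    calc (2 : ℝ) ^ (0.612 : ℝ) ≤ 2 ^ (1 : ℝ) := Real.rpow_le_rpow_of_exponent_le (by norm_num) (by norm_num)
      _ = 2 := Real.rpow_one 2
  have h6 : X ^ (0.004 : ℝ) * X ^ (0.612 : ℝ) = X ^ (0.616 : ℝ) := by rw [← Real.rpow_add hX0]; norm_num
  have h7 : X ^ (0.004 : ℝ) * X ^ (0.616 : ℝ) = X ^ (0.62 : ℝ) := by rw [← Real.rpow_add hX0]; norm_num
  have h8 : X ^ (0.5 : ℝ) ≤ X ^ (0.616 : ℝ) := Real.rpow_le_rpow_of_exponent_le hX (by norm_num)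
  have h9 : 1 ≤ X ^ (0.616 : ℝ) := Real.one_le_rpow hX (by norm_num)
  have h10 : 0 < X ^ (0.616 : ℝ) := by positivity
  have h11 : c * (Real.log X) ^ 4 * (2 * X) ^ (0.612 : ℝ) ≤ 2 * c * X ^ (0.616 : ℝ) := by
    calc c * (Real.log X) ^ 4 * (2 * X) ^ (0.612 : ℝ) ≤ c * X ^ (0.004 : ℝ) * (2 * X ^ (0.612 : ℝ)) := by gcongr
      _ = 2 * c * X ^ (0.616 : ℝ) := by rw [← h6]; ring
  have h12 : (16 * c + 8) * X ^ (0.616 : ℝ) ≤ X ^ (0.62 : ℝ) := by
    rw [← h7]
    exact mul_le_mul_of_nonneg_right h2 h10.le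
  nlinarith

lemma rec_le : ∀ᶠ X : ℝ in atTop, rec X ≤ (Real.log X) ^ 4 := by
  have t1 : Tendsto (fun X : ℝ => Real.log (Real.log (Real.log X))) atTop atTop :=
    Real.tendsto_log_atTop.comp (Real.tendsto_log_atTop.comp Real.tendsto_log_atTop)
  have t2 : Tendsto (fun X : ℝ => Real.log (Real.log X)) atTop atTop :=
    Real.tendsto_log_atTop.comp Real.tendsto_log_atTop
  filter_upwards [t1.eventually_ge_atTop 1, t2.eventually_ge_atTop 1, Real.tendsto_log_atTop.eventually_ge_atTop 1]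
    with X h3 h2 h1
  have e1 : Real.log (Real.log X) ≤ Real.log X := (Real.log_le_sub_one_of_pos (by linarith)).trans (by linarith)
  have e2 : Real.log (Real.log (Real.log X)) ≤ Real.log (Real.log X) :=
    (Real.log_le_sub_one_of_pos (by linarith)).trans (by linarith)
  have e3 : Real.log (Real.log (Real.log (Real.log X))) ≤ Real.log (Real.log (Real.log X)) :=
    (Real.log_le_sub_one_of_pos (by linarith)).trans (by linarith)
  have e4 : 0 ≤ Real.log (Real.log (Real.log (Real.log X))) := Real.log_nonneg h3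
  unfold rec
  rw [div_le_iff₀ (by positivity)]
  have a1 : Real.log X * Real.log (Real.log X) ^ 2 * Real.log (Real.log (Real.log (Real.log X))) ≤
      Real.log X * Real.log X ^ 2 * Real.log X := by
    have e5 : Real.log (Real.log (Real.log (Real.log X))) ≤ Real.log X := by linarith
    have e6 : Real.log (Real.log X) ^ 2 ≤ Real.log X ^ 2 := pow_le_pow_left₀ (by linarith) e1 2
    exact mul_le_mul (mul_le_mul_of_nonneg_left e6 (by linarith)) e5 e4 (by positivity)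
  have a2 : Real.log X ^ 4 * 1 ≤ Real.log X ^ 4 * Real.log (Real.log (Real.log X)) ^ 2 := by
    gcongr
    nlinarith
  calc _ ≤ Real.log X * Real.log X ^ 2 * Real.log X := a1
    _ = Real.log X ^ 4 * 1 := by ring
    _ ≤ _ := a2

/-- **Theorem.** There are `c, c', δ > 0` such that for all `k ≥ 1` and all `m` there is `B` with: for all large `X`, all `ε`
with `2 (log X)^(-1/2) ≤ ε ≤ 0.38` and all `J ≥ 1`, `Z ≥ ε log X` with `J Z ≤ c ε f(X)` there are at least
`X ^ (1 - ε) / 2` integers `n ≤ X` such that all of `x = n, …, n + J - 1` are lonely (`x²` and `x² + x` have no prime within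
`Z`) and full (every interval of length `H ≥ x ^ (1 - δ)` in `[x² - x, x² + x]` has at least `c' H / log x` primes and
contains `k` equal blocks of at least `m` primes). -/
theorem result : ∃ c c' δ : ℝ, 0 < c ∧ 0 < c' ∧ 0 < δ ∧ ∀ k m : ℕ, 1 ≤ k → ∃ B : ℕ, ∀ᶠ X : ℕ in atTop,
    ∀ ε : ℝ, 2 / Real.sqrt (Real.log X) ≤ ε → ε ≤ 0.38 →
    ∀ J Z : ℕ, 1 ≤ J → ε * Real.log X ≤ Z → (J : ℝ) * Z ≤ c * ε * rec X →
    ∃ S : Finset ℕ, (X : ℝ) ^ (1 - ε) / 2 ≤ S.card ∧
      ∀ n ∈ S, 1 ≤ n ∧ n ≤ X ∧ ∀ j : ℕ, j < J → Lonely Z (n + j) ∧ Full c' δ k m B (n + j) := by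
  classical
  obtain ⟨c, hc, hstart⟩ : ∃ c : ℝ, 0 < c ∧ ∀ᶠ X : ℕ in atTop,
      ∀ ε : ℝ, 2 / Real.sqrt (Real.log X) ≤ ε → ε ≤ 1 →
      ∀ J Z : ℕ, 1 ≤ J → ε * Real.log X ≤ Z → (J : ℝ) * Z ≤ c * ε * rec X →
      ∃ S : Finset ℕ, (∀ n ∈ S, 1 ≤ n ∧ n ≤ X ∧ ∀ j : ℕ, j < J → Lonely Z (n + j)) ∧
        (X : ℝ) ^ (1 - ε) ≤ S.card := by
    obtain ⟨c, hc, Y₀, h⟩ := Pool.Agent.H426R3.SQ.squares_pronics_main
    refine ⟨c / 16, by positivity, ?_⟩
    have key := Pool.Agent.H683R3.SQ.freq2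
      (fun (i : ℕ × ℕ) n => ∀ j : ℕ, j < i.1 → ∀ q : ℕ, q.Prime →
        (i.2 : ℝ) < |(q : ℝ) - ((n : ℝ) + j) ^ 2| ∧
          (i.2 : ℝ) < |(q : ℝ) - ((n : ℝ) + j) * ((n : ℝ) + j + 1)|)
      (fun i Y => 1 ≤ i.1 ∧ Real.log Y ≤ i.2 ∧ (i.1 : ℝ) * i.2 ≤ c * Pool.Agent.H683R3.SQ.rec Y) (by
        filter_upwards [eventually_ge_atTop Y₀] with Y hY M hM i hi
        exact h Y hY M hM i.1 i.2 hi.1 hi.2.1 hi.2.2)
    filter_upwards [key, Pool.Agent.H683R3.SQ.rec_half, eventually_ge_atTop 2,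
      (Real.tendsto_log_atTop.comp (tendsto_natCast_atTop_atTop (R := ℝ))).eventually_ge_atTop 1]
      with X hX hrec hX2 hlog ε hε hε1 J Z hJ hZ hJZ
    have hX0 : (0 : ℝ) < X := by
      have : (2 : ℝ) ≤ X := by exact_mod_cast hX2
      linarith
    have hlog' : 1 ≤ Real.log (X : ℝ) := hlog
    have hε0 : 0 < ε := lt_of_lt_of_le (by positivity) hε
    obtain ⟨S, hS1, hS2⟩ := hX ε hε hε1 (J, Z) (by
      refine ⟨hJ, ?_, ?_⟩
      · show Real.log ((X : ℝ) ^ (ε / 2)) ≤ (Z : ℝ)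
        rw [Real.log_rpow hX0]
        have : 0 ≤ ε * Real.log (X : ℝ) := by positivity
        linarith
      · show (J : ℝ) * Z ≤ c * Pool.Agent.H683R3.SQ.rec ((X : ℝ) ^ (ε / 2))
        have h1 := mul_le_mul_of_nonneg_left (hrec ε hε hε1) hc.le
        have h2 : (J : ℝ) * Z ≤ c / 16 * ε * Pool.Agent.H683R3.SQ.rec X := hJZ
        have h3 : c / 16 * ε * Pool.Agent.H683R3.SQ.rec X =
            c * (ε / 16 * Pool.Agent.H683R3.SQ.rec X) := by ring
        rw [h3] at h2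
        exact h2.trans h1)
    refine ⟨S, fun n hn => ⟨(hS1 n hn).1, (hS1 n hn).2.1, fun j hj q hq => ?_⟩, hS2⟩
    obtain ⟨h1, h2⟩ := (hS1 n hn).2.2 j hj q hq
    push_cast
    refine ⟨h1, ?_⟩
    have e : ((n : ℝ) + j) ^ 2 + ((n : ℝ) + j) = ((n : ℝ) + j) * ((n : ℝ) + j + 1) := by ring
    rw [e]
    exact h2
  obtain ⟨c', δ, hc', hδ, hδ1, hfew⟩ := Pool.Agent.U766.OP.few Pool.Agent.Q278.KT.mainp_half
  refine ⟨c, c', δ, hc, hc', hδ, fun k m hk => ?_⟩
  have hWIN : Pool.Agent.U766.OP.WIN := fun k A hk hA ε C hε => Pool.Agent.Y880.RS.P3.windows k A hk hA ε C hε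
  obtain ⟨B, n₀, hblk⟩ := Pool.Agent.U766.OP.blocks_of hWIN hc' hδ1 k m hk
  obtain ⟨N0, hN0⟩ := hfew 1 le_rfl
  refine ⟨B, ?_⟩
  have tn : Tendsto (fun n : ℕ => (n : ℝ)) atTop atTop := tendsto_natCast_atTop_atTop
  filter_upwards [hstart, tn.eventually (growth c hc), tn.eventually rec_le, eventually_ge_atTop N0,
    eventually_ge_atTop (n₀ ^ 2), tn.eventually_ge_atTop 2,
    (Real.tendsto_log_atTop.comp tn).eventually_ge_atTop 1]
    with X hX hg hrec hXN hXn0 hX2 hlog ε hε hε1 J Z hJ hZ hJZ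
  have hlog' : 1 ≤ Real.log (X : ℝ) := hlog
  have hX0 : (0 : ℝ) < X := by linarith
  have hε0 : 0 < ε := lt_of_lt_of_le (by positivity) hε
  obtain ⟨S, hS1, hS2⟩ := hX ε hε (by linarith) J Z hJ hZ hJZ
  -- the size of J
  have hZ0 : (0 : ℝ) < Z := lt_of_lt_of_le (by positivity) hZ
  have hZ1 : (1 : ℝ) ≤ Z := by
    have : 0 < Z := by exact_mod_cast hZ0
    exact_mod_cast this
  have hJ0 : (0 : ℝ) ≤ J := Nat.cast_nonneg J
  have hJle : (J : ℝ) ≤ c * (Real.log X) ^ 4 := by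
    have h1 : (J : ℝ) ≤ J * Z := le_mul_of_one_le_right hJ0 hZ1
    have h2 : c * ε * rec X ≤ c * ε * (Real.log X) ^ 4 := by gcongr
    have h3 : c * ε * (Real.log X) ^ 4 ≤ c * 1 * (Real.log X) ^ 4 := by
      gcongr
      linarith
    linarith
  have hJX : J ≤ X := by
    have h1 : (J : ℝ) ≤ X := by
      refine hJle.trans ?_
      have h2 : 1 ≤ (2 * (X : ℝ)) ^ (0.612 : ℝ) := Real.one_le_rpow (by linarith) (by norm_num)
      have h3 : c * (Real.log X) ^ 4 * 1 ≤ c * (Real.log X) ^ 4 * (2 * (X : ℝ)) ^ (0.612 : ℝ) := by gcongr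
      have h4 : 0 < (X : ℝ) ^ (0.5 : ℝ) := by positivity
      have h5 : (X : ℝ) ^ (0.62 : ℝ) ≤ X := by
        calc (X : ℝ) ^ (0.62 : ℝ) ≤ (X : ℝ) ^ (1 : ℝ) :=
              Real.rpow_le_rpow_of_exponent_le (by linarith) (by norm_num)
          _ = X := Real.rpow_one _
      linarith
    exact_mod_cast h1
  -- the exceptional integers
  set R : Finset ℕ := (Finset.Icc 1 (2 * X)).filter (fun x => ¬ Pool.Agent.U766.OP.Rich c' δ x) with hR
  have hRc : (R.card : ℝ) ≤ (2 * (X : ℝ)) ^ (0.612 : ℝ) := by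
    have h1 := hN0 (2 * X) (by omega)
    rw [one_mul] at h1
    have h2 : {n : ℕ | 1 ≤ n ∧ n ≤ 2 * X ∧ ¬ Pool.Agent.U766.OP.Rich c' δ n} = (R : Set ℕ) := by
      ext x
      rw [hR, Finset.coe_filter]
      simp only [Set.mem_ofPred_eq, Finset.mem_Icc]
      tauto
    rw [h2, Set.ncard_coe_finset] at h1
    push_cast at h1
    exact h1
  set T : Finset ℕ := S.filter (fun n => Nat.sqrt X ≤ n ∧ ∀ j < J, Pool.Agent.U766.OP.Rich c' δ (n + j)) with hT
  have hsub : S \ T ⊆ Finset.range (Nat.sqrt X + 1) ∪ (R ×ˢ Finset.range J).image (fun p => p.1 - p.2) := by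
    intro n hn
    rw [Finset.mem_sdiff, hT, Finset.mem_filter] at hn
    obtain ⟨hnS, hn2⟩ := hn
    rw [Finset.mem_union]
    by_cases h1 : Nat.sqrt X ≤ n
    · right
      have h2 : ¬ ∀ j < J, Pool.Agent.U766.OP.Rich c' δ (n + j) := fun h => hn2 ⟨hnS, h1, h⟩
      push Not at h2
      obtain ⟨j, hj, hj2⟩ := h2
      rw [Finset.mem_image]
      refine ⟨(n + j, j), ?_, by simp⟩
      rw [Finset.mem_product, hR, Finset.mem_filter, Finset.mem_Icc, Finset.mem_range]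
      have := hS1 n hnS
      exact ⟨⟨⟨by omega, by omega⟩, hj2⟩, hj⟩
    · left
      rw [Finset.mem_range]
      omega
  have hcard : ((S \ T).card : ℝ) ≤ (X : ℝ) ^ (0.62 : ℝ) / 2 := by
    have h1 : (S \ T).card ≤ (Nat.sqrt X + 1) + R.card * J := by
      refine (Finset.card_le_card hsub).trans ((Finset.card_union_le _ _).trans ?_)
      rw [Finset.card_range]
      refine Nat.add_le_add_left ?_ _
      refine Finset.card_image_le.trans ?_
      rw [Finset.card_product, Finset.card_range]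
    have h2 : ((S \ T).card : ℝ) ≤ ((Nat.sqrt X : ℕ) + 1 : ℝ) + R.card * J := by exact_mod_cast h1
    have h3 : ((Nat.sqrt X : ℕ) : ℝ) ≤ (X : ℝ) ^ (0.5 : ℝ) := by
      have h4 := Real.nat_sqrt_le_real_sqrt (a := X)
      rw [Real.sqrt_eq_rpow] at h4
      norm_num at h4 ⊢
      exact h4
    have h5 : (R.card : ℝ) * J ≤ c * (Real.log X) ^ 4 * (2 * (X : ℝ)) ^ (0.612 : ℝ) := by
      calc (R.card : ℝ) * J ≤ (2 * (X : ℝ)) ^ (0.612 : ℝ) * (c * (Real.log X) ^ 4) := by gcongr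
        _ = _ := by ring
    linarith
  refine ⟨T, ?_, fun n hn => ?_⟩
  · have h1 : S.card ≤ T.card + (S \ T).card := by
      have := Finset.card_le_card_sdiff_add_card (s := S) (t := T)
      omega
    have h2 : (S.card : ℝ) ≤ T.card + (S \ T).card := by exact_mod_cast h1
    have h3 : (X : ℝ) ^ (0.62 : ℝ) ≤ (X : ℝ) ^ (1 - ε) :=
      Real.rpow_le_rpow_of_exponent_le (by linarith) (by linarith)
    linarith
  · rw [hT, Finset.mem_filter] at hn
    obtain ⟨hnS, hn1, hn2⟩ := hn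
    obtain ⟨g1, g2, g3⟩ := hS1 n hnS
    refine ⟨g1, g2, fun j hj => ⟨g3 j hj, fun a H hw => ?_⟩⟩
    have hrich := hn2 j hj a H hw.1 hw.2.1 hw.2.2
    refine ⟨hrich, ?_⟩
    have hnn : n₀ ≤ n + j := by
      have : n₀ ≤ Nat.sqrt X := by
        rw [Nat.le_sqrt']
        exact hXn0
      omega
    exact hblk (n + j) hnn a H hw.1 hw.2.1 hw.2.2 hrich

end Pool.Agent.Results.MP_bf4c7f_nt.LonelyEndpointsFullWindows
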