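import Pool.Agent.S821.Products
import Pool.Agent.S821.PowIdx
import Pool.Agent.Q278.KT.Fin

/-!
# Oppermann's conjecture for all the multiples of products of values of multiplicative functions

Let `F_1, …, F_k` be multiplicative functions such as the identity, Euler's function, the sum of the divisors. We show that for
all but `N ^ k / (log N) ^ U` of the `m ∈ [1, N] ^ k`, for every `U`, Oppermann's conjecture is true for ALL the multiples
`x = j F_1(m_1) ⋯ F_k(m_k)` with `j ≤ N ^ τ`, and also for all the integers `x` at a distance of at most `N ^ κ` from one of these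
multiples, if `0.612 (k + τ) + κ ≤ k`. For example, for almost all pairs `(l, m)` the two intervals of Oppermann contain primes
for ALL the integers `x` divisible by `φ(l) φ(m)` with `x ≤ φ(l) φ(m) N ^ 1.26`; for almost all `m` the same is true for all the
`x ≤ φ(m) N ^ 0.63` divisible by `φ(m)`. Moreover, for these `x` every interval of length `H ≥ x ^ (1 - δ)` in
`[x ^ 2 - x, x ^ 2 + x]` contains at least `c H / log x` primes.

Proof. `Pool/Agent/Q278/KT` of the starting library (prepared for another question, on completely multiplicative functions)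
bounds the number of separated short intervals with few primes, and hence the number of the exceptional `x ≤ X` by
`X ^ (0.612 - δ)` (form of helper766 in `U766/OP/Core`, representatives in `S821/Poor`, powers in `S821/PowIdx`). Then the values avoid
the exceptional `x`: the products `j w_1 ⋯ w_k` near a thin set of integers are counted with the divisor bound, and the tuples law of
`Pool/Agent/N733/TG/T` of the starting library passes to the values (`S821/Products`). The values have density zero for Euler's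
function and are taken with large multiplicities, so that bounds for the number of exceptional `x ≤ X` alone do not give this.
-/

set_option autoImplicit false

open Finset Filter

namespace Pool.Agent.Results.MP_bf4c7f_nt.MultiplesOfProducts

open Pool.Agent.N733.TG (LM)

/-- Oppermann's conjecture for `x`: `π(x² - x) < π(x²) < π(x² + x)`. -/
def Oppermann (x : ℕ) : Prop := 1 < x →
  Nat.primeCounting (x ^ 2 - x) < Nat.primeCounting (x ^ 2) ∧ Nat.primeCounting (x ^ 2) < Nat.primeCounting (x ^ 2 + x)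

/-- Every interval `(a, a + H]` in `[x ^ 2 - x, x ^ 2 + x]` with `H ≥ x ^ (1 - δ)` contains at least `c H / log x` primes. -/
def Rich (c δ : ℝ) (x : ℕ) : Prop := ∀ a H : ℕ, x ^ 2 ≤ a + x → a + H ≤ x ^ 2 + x → (x : ℝ) ^ (1 - δ) ≤ H →
  c * H / Real.log x ≤ (((Finset.Ioc a (a + H)).filter Nat.Prime).card : ℝ)

lemma lt_of_rich {c δ : ℝ} {x : ℕ} (hc : 0 < c) (hδ : 0 ≤ δ) (hx : 1 < x) (h : Rich c δ x) (a : ℕ) (h1 : x ^ 2 ≤ a + x)
    (h2 : a + x ≤ x ^ 2 + x) : Nat.primeCounting a < Nat.primeCounting (a + x) := by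
  have hx1 : (1 : ℝ) < x := by exact_mod_cast hx
  have hx0 : (0 : ℝ) < x := by linarith
  have h3 : (x : ℝ) ^ (1 - δ) ≤ x := by
    calc (x : ℝ) ^ (1 - δ) ≤ (x : ℝ) ^ (1 : ℝ) := Real.rpow_le_rpow_of_exponent_le hx1.le (by linarith)
      _ = x := Real.rpow_one _
  have h4 := h a x h1 h2 h3
  have h5 : 0 < Real.log x := Real.log_pos hx1
  have h6 : (0 : ℝ) < (((Finset.Ioc a (a + x)).filter Nat.Prime).card : ℝ) := lt_of_lt_of_le (by positivity) h4
  obtain ⟨p, hp⟩ := card_pos.1 (by exact_mod_cast h6 : 0 < ((Finset.Ioc a (a + x)).filter Nat.Prime).card)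
  rw [mem_filter, mem_Ioc] at hp
  obtain ⟨⟨h7, h8⟩, h9⟩ := hp
  unfold Nat.primeCounting Nat.primeCounting'
  exact lt_of_le_of_lt (Nat.count_monotone Nat.Prime (by omega : a + 1 ≤ p)) (Nat.count_strict_mono h9 (by omega))

lemma oppermann_of_rich {c δ : ℝ} {x : ℕ} (hc : 0 < c) (hδ : 0 ≤ δ) (h : Rich c δ x) : Oppermann x := by
  intro hx
  have hxx : x ≤ x ^ 2 := by nlinarith
  have h1 := lt_of_rich hc hδ hx h (x ^ 2 - x) (by omega) (by omega)
  have h2 := lt_of_rich hc hδ hx h (x ^ 2) (by omega) (by omega)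
  rw [Nat.sub_add_cancel hxx] at h1
  exact ⟨h1, h2⟩

/-- **Oppermann's conjecture for the multiples of products of values.** There are `c > 0` and `δ > 0` such that for all
functions `F_1, …, F_k` of the class `LM`, `k ≥ 1`, all `τ ≥ 0` and `κ ≥ 0` with `0.612 (k + τ) + κ ≤ k`, and every `U`, for large
`N`: for all but at most `N ^ k / (log N) ^ U` of the `m ∈ [1, N] ^ k`, ALL the integers `x` at a distance of at most `N ^ κ` from a
multiple `j F_1(m_1) ⋯ F_k(m_k)`, `1 ≤ j ≤ N ^ τ`, satisfy `π(x² - x) < π(x²) < π(x² + x)` (if `x > 1`), and every interval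
`(a, a + H]` in `[x ^ 2 - x, x ^ 2 + x]` with `H ≥ x ^ (1 - δ)` contains at least `c H / log x` primes. The identity, Euler's
function and the sum of the divisors belong to the class `LM`. -/
theorem result :
    (∃ c δ : ℝ, 0 < c ∧ 0 < δ ∧ ∀ (k : ℕ) (F : Fin k → ℕ → ℕ), 1 ≤ k → (∀ i, LM (F i)) → ∀ τ κ : ℝ, 0 ≤ τ → 0 ≤ κ →
      0.612 * (k + τ) + κ ≤ k → ∀ U : ℕ, ∃ N₀ : ℕ, ∀ N : ℕ, N₀ ≤ N →
        ({m : Fin k → ℕ | (∀ i, 1 ≤ m i ∧ m i ≤ N) ∧ ¬ ∀ j x : ℕ, 1 ≤ j → (j : ℝ) ≤ (N : ℝ) ^ τ →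
          |(x : ℝ) - j * ∏ i, (F i (m i) : ℝ)| ≤ (N : ℝ) ^ κ → Oppermann x ∧ Rich c δ x}.ncard : ℝ) ≤
            (N : ℝ) ^ k / Real.log N ^ U) ∧
    (LM (fun m => m) ∧ LM Nat.totient ∧ LM (fun m => ∑ d ∈ m.divisors, d)) := by
  obtain ⟨e1, -, -⟩ := Pool.Agent.S821.Laws.examples
  refine ⟨?_, e1⟩
  obtain ⟨c, δ, hc, hδ, hδ1, h⟩ := Pool.Agent.S821.PowIdx.bad_powers Pool.Agent.Q278.KT.mainp_half (by norm_num)
    (by norm_num) (by norm_num) (by norm_num)
  obtain ⟨C, hC, hB⟩ := h 2 1 (by norm_num) (by norm_num) (by norm_num)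
  refine ⟨c / 2, δ, by positivity, hδ, fun k F hk hF τ κ hτ hκ hle U => ?_⟩
  have hk1 : (1 : ℝ) ≤ k := by exact_mod_cast hk
  obtain ⟨B, hBdef⟩ : ∃ B : Set ℕ, B = {n : ℕ | ¬ Pool.Agent.S821.PowIdx.RichPow (c / 2) (2 * (1 - 1 / 2) - δ) 2 1 n} :=
    ⟨_, rfl⟩
  rw [← hBdef] at hB
  obtain ⟨N₀, hN₀⟩ := Pool.Agent.S821.Mult.prod_law hF B (s := 2 * 0.306 - δ) (τ := τ) (κ := κ) (by linarith) hτ hκ
    (by nlinarith) C hB U
  have hgood : ∀ x : ℕ, x ∉ B → Oppermann x ∧ Rich (c / 2) δ x := by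
    intro x hx
    rw [hBdef] at hx
    have h1 : Pool.Agent.S821.PowIdx.RichPow (c / 2) (2 * (1 - 1 / 2) - δ) 2 1 x := by
      by_contra hcon
      exact hx hcon
    have h2 : Rich (c / 2) δ x := by
      intro a H g1 g2 g3
      have g1' : (x : ℝ) ^ 2 ≤ a + x := by exact_mod_cast g1
      have g2' : (a : ℝ) + H ≤ (x : ℝ) ^ 2 + x := by exact_mod_cast g2
      have hH : (0 : ℝ) ≤ H := Nat.cast_nonneg _
      refine h1 a H ?_ ?_ ?_
      · rw [Real.rpow_two, show (2 : ℝ) - 1 = 1 by norm_num, Real.rpow_one, one_mul, abs_le]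
        constructor <;> linarith
      · rw [Real.rpow_two, show (2 : ℝ) - 1 = 1 by norm_num, Real.rpow_one, one_mul, abs_le]
        constructor <;> linarith
      · have e : (2 : ℝ) * (1 - 1 / 2) - δ = 1 - δ := by ring
        rw [e]
        exact g3
    exact ⟨oppermann_of_rich (by positivity) hδ.le h2, h2⟩
  refine ⟨N₀, fun N hN => le_trans (Nat.cast_le.2 (Set.ncard_le_ncard ?_ ?_)) (hN₀ N hN)⟩
  · rintro m ⟨hm, hm2⟩
    refine ⟨hm, ?_⟩
    by_contra hcon
    refine hm2 fun j x hj hjN hx => hgood x fun hxB => ?_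
    exact hcon ⟨j, hj, hjN, x, hxB, hx⟩
  · refine (Set.Finite.pi' fun _ : Fin k => Set.finite_Icc 1 N).subset ?_
    rintro m ⟨hm, -⟩ i
    exact hm i

end Pool.Agent.Results.MP_bf4c7f_nt.MultiplesOfProducts
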